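import Pool.Agent.Y574.AG.Sml

/-!
# Asymmetric growth in alternating groups for random elements, on the average over all conjugates

For every `δ > 0` there is `ε > 0` such that for all `n ≥ 5` and all independent random elements
`X`, `Y` of `Alt(n)` with arbitrary distributions such that `H(X) ≤ (1-δ) log |Alt(n)|` the mean of
`H(X Y^g)` over all `g` in `Alt(n)` is at least `H(X) + ε H₂(Y)`.

For the uniform distributions on subsets `B` and `A` this gives (see `geometric_mean` and
`positive_proportion` below, which are not part of the hand-in): if `|B| ≤ |Alt(n)|^(1-δ)`, then the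
geometric mean of `|B A^g|` over all `g` is at least `|B| |A|^ε`, and `|B A^g| ≥ |B| |A|^(ε/2)` for
a positive proportion of the elements `g`.
-/

set_option autoImplicit false

open scoped Pointwise

namespace Pool.Agent.Results.MP_f20ab1_al.EntropyGrowth

open Pool.Agent.W904.AK Pool.Agent.TH408.GR Pool.Agent.Y574.AG

/-- A probability distribution on a finite set. -/
def IsProb {G : Type} [Fintype G] (μ : G → ℝ) : Prop :=
  (∀ x, 0 ≤ μ x) ∧ ∑ x, μ x = 1

/-- The Shannon entropy `-∑ μ(x) log μ(x)` of a distribution on a finite set. -/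
noncomputable def entropy {G : Type} [Fintype G] (μ : G → ℝ) : ℝ :=
  ∑ x, Real.negMulLog (μ x)

/-- The distribution of `X g⁻¹ Y g`, where `X` and `Y` are independent random elements of a finite
group with the distributions `μ` and `ν`. -/
noncomputable def productLaw {G : Type} [Group G] [Fintype G] (μ ν : G → ℝ) (g w : G) : ℝ :=
  ∑ x, μ x * ν (g * (x⁻¹ * w) * g⁻¹)

/-- The set `B A^g`. -/
theorem bag_card {n : ℕ} (A B : Finset (alternatingGroup (Fin n)))
    (g : alternatingGroup (Fin n)) :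
    (bag B A g).card = (B * A.image (fun a => g⁻¹ * a * g)).card := by
  have h : bag B A g = B * A.image (fun a => g⁻¹ * a * g) := by
    ext x
    unfold bag
    rw [Finset.mem_mul]
    simp only [Finset.mem_image, Finset.mem_product, Prod.exists]
    constructor
    · rintro ⟨b, a, ⟨hb, ha⟩, rfl⟩
      exact ⟨b, hb, g⁻¹ * a * g, ⟨a, ha, rfl⟩, rfl⟩
    · rintro ⟨b, hb, y, ⟨a, ha, rfl⟩, rfl⟩
      exact ⟨b, a, ⟨hb, ha⟩, rfl⟩
  rw [h]

open scoped Classical in
theorem productLaw_eq {G : Type} [Group G] [Fintype G] (μ ν : G → ℝ) (g : G) :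
    productLaw μ ν g = conv μ ν g := by
  funext w
  unfold productLaw conv
  refine Finset.sum_congr rfl fun x _ => ?_
  have h1 : ∀ y : G, x * (g⁻¹ * y * g) = w ↔ g * (x⁻¹ * w) * g⁻¹ = y := by
    intro y
    constructor
    · rintro rfl
      group
    · rintro rfl
      group
  simp only [h1]
  rw [Finset.sum_ite_eq, if_pos (Finset.mem_univ _)]

/-- **Asymmetric growth in alternating groups for random elements.** For every `δ > 0` there is
`ε > 0` such that for all `n ≥ 5` and all independent random elements `X`, `Y` of `Alt(n)`, with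
arbitrary distributions `μ`, `ν` such that `H(X) ≤ (1-δ) log |Alt(n)|`, the mean over all `g` in
`Alt(n)` of the entropy of `X g⁻¹ Y g` is at least `H(X) + ε H₂(Y)`, where
`H₂(Y) = -log (∑ ν(y)²)` is the collision entropy. -/
theorem result : ∀ δ : ℝ, 0 < δ → ∃ ε : ℝ, 0 < ε ∧
    ∀ n : ℕ, 5 ≤ n → ∀ μ ν : alternatingGroup (Fin n) → ℝ, IsProb μ → IsProb ν →
      entropy μ ≤ (1 - δ) * Real.log (Nat.card (alternatingGroup (Fin n))) →
        entropy μ + ε * -Real.log (∑ x, ν x ^ 2) ≤
          (∑ g : alternatingGroup (Fin n), entropy (productLaw μ ν g)) /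
            (Nat.card (alternatingGroup (Fin n)) : ℝ) := by
  intro δ hδ
  obtain ⟨ε, hε, h⟩ := entall δ hδ
  refine ⟨ε, hε, fun n hn μ ν hμ hν hent => ?_⟩
  have hG : (0 : ℝ) < Fintype.card (alternatingGroup (Fin n)) := by
    exact_mod_cast Fintype.card_pos
  simp only [Nat.card_eq_fintype_card (α := alternatingGroup (Fin n))] at hent ⊢
  have h1 := h n hn μ ν ⟨hμ.1, hμ.2⟩ ⟨hν.1, hν.2⟩ hent
  have h5 : ∑ g : alternatingGroup (Fin n), entropy (productLaw μ ν g) =
      ∑ g : alternatingGroup (Fin n), E (conv μ ν g) := by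
    refine Finset.sum_congr rfl fun g _ => ?_
    rw [productLaw_eq]
    rfl
  rw [h5, le_div_iff₀ hG, mul_comm]
  exact h1

/-- The case of sets: the geometric mean of `|B A^g|` over all `g` is at least `|B| |A|^ε`. -/
theorem geometric_mean : ∀ δ : ℝ, 0 < δ → ∃ ε : ℝ, 0 < ε ∧
    ∀ n : ℕ, 5 ≤ n → ∀ A B : Finset (alternatingGroup (Fin n)),
      (B.card : ℝ) ≤ (Nat.card (alternatingGroup (Fin n)) : ℝ) ^ (1 - δ) →
        ((B.card : ℝ) * (A.card : ℝ) ^ ε) ^ Nat.card (alternatingGroup (Fin n)) ≤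
          ∏ g : alternatingGroup (Fin n),
            ((B * A.image (fun a => g⁻¹ * a * g)).card : ℝ) := by
  intro δ hδ
  obtain ⟨ε, hε, _, h1⟩ := geo δ hδ
  refine ⟨ε, hε, fun n hn A B hBc => ?_⟩
  simp only [Nat.card_eq_fintype_card (α := alternatingGroup (Fin n))] at hBc ⊢
  have htriv : (B.card : ℝ) * (A.card : ℝ) ^ ε = 0 →
      ((B.card : ℝ) * (A.card : ℝ) ^ ε) ^ Fintype.card (alternatingGroup (Fin n)) ≤
        ∏ g : alternatingGroup (Fin n),
          ((B * A.image (fun a => g⁻¹ * a * g)).card : ℝ) := by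
    intro h0
    rw [h0, zero_pow Fintype.card_ne_zero]
    exact Finset.prod_nonneg fun g _ => Nat.cast_nonneg _
  rcases A.eq_empty_or_nonempty with hA | hA
  · apply htriv
    rw [hA, Finset.card_empty, Nat.cast_zero, Real.zero_rpow hε.ne', mul_zero]
  rcases B.eq_empty_or_nonempty with hB | hB
  · apply htriv
    rw [hB, Finset.card_empty, Nat.cast_zero, zero_mul]
  have hA0 : (0 : ℝ) < A.card := by exact_mod_cast hA.card_pos
  have hB0 : (0 : ℝ) < B.card := by exact_mod_cast hB.card_pos
  have h3 := h1 n hn A B hA hB hBc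
  have hbag : ∀ g : alternatingGroup (Fin n), (0 : ℝ) < ((bag B A g).card : ℝ) := fun g => by
    have := le_card_bag A B hA g
    exact hB0.trans_le (by exact_mod_cast this)
  simp only [← bag_card]
  have hl : 0 < (B.card : ℝ) * (A.card : ℝ) ^ ε := mul_pos hB0 (Real.rpow_pos_of_pos hA0 _)
  rw [← Real.log_le_log_iff (pow_pos hl _) (Finset.prod_pos fun g _ => hbag g),
    Real.log_pow, Real.log_mul hB0.ne' (Real.rpow_pos_of_pos hA0 _).ne', Real.log_rpow hA0,
    Real.log_prod (fun g _ => (hbag g).ne')]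
  exact h3

/-- The case of sets: `|B A^g| ≥ |B| |A|^ε` for a positive proportion of the elements `g`. -/
theorem positive_proportion : ∀ δ : ℝ, 0 < δ → ∃ ε : ℝ, 0 < ε ∧
    ∀ n : ℕ, 5 ≤ n → ∀ A B : Finset (alternatingGroup (Fin n)), A.Nonempty → B.Nonempty →
      (B.card : ℝ) ≤ (Nat.card (alternatingGroup (Fin n)) : ℝ) ^ (1 - δ) →
        ε * (Nat.card (alternatingGroup (Fin n)) : ℝ) ≤
          (Nat.card {g : alternatingGroup (Fin n) // (B.card : ℝ) * (A.card : ℝ) ^ ε ≤
            ((B * A.image (fun a => g⁻¹ * a * g)).card : ℝ)} : ℝ) := by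
  intro δ hδ
  obtain ⟨ε, hε, hε1, h1⟩ := geo δ hδ
  refine ⟨ε / 2, by linarith, fun n hn A B hA hB hBc => ?_⟩
  simp only [Nat.card_eq_fintype_card (α := alternatingGroup (Fin n))] at hBc ⊢
  have h4 := proportion A B hA hB hε hε1 (h1 n hn A B hA hB hBc)
  refine h4.trans ?_
  rw [Nat.card_eq_fintype_card, Fintype.card_subtype]
  refine Nat.cast_le.2 (Finset.card_le_card ?_)
  intro g hg
  rw [Finset.mem_filter] at hg ⊢
  refine ⟨Finset.mem_univ _, ?_⟩
  rw [← bag_card]
  exact hg.2

end Pool.Agent.Results.MP_f20ab1_al.EntropyGrowth
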